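import Pool.Agent.H17.CI.TargetsD
import Pool.Agent.H92.VG.GR

/-!
# MP_70ba79_ag: row GRT of the board `ci_modules`: gradients of forms with normal crossings
-/

set_option autoImplicit false

namespace Pool.Agent.H1.CI

open MvPolynomial SC Pool.Agent.H27.LV Pool.Agent.H17.VG Pool.Agent.H17.CI

section

variable {k K : Type} [Field k] [Field K] [Algebra k K]

/-- `w` is integral and reduces to `c` -/
def Rd (v : DV k K) (w : K) (c : k) : Prop := ge v 0 w ∧ ge v 1 (w - algebraMap k K c)

lemma Rd.add {v : DV k K} {w w' : K} {c c' : k} (h : Rd v w c) (h' : Rd v w' c') :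
    Rd v (w + w') (c + c') := by
  refine ⟨h.1.add h'.1, ?_⟩
  have e : w + w' - algebraMap k K (c + c') =
      (w - algebraMap k K c) + (w' - algebraMap k K c') := by
    rw [map_add]
    ring
  rw [e]
  exact h.2.add h'.2

lemma Rd.mul {v : DV k K} {w w' : K} {c c' : k} (h : Rd v w c) (h' : Rd v w' c') :
    Rd v (w * w') (c * c') := by
  refine ⟨by simpa using h.1.mul h'.1, ?_⟩
  have e : w * w' - algebraMap k K (c * c') =
      (w - algebraMap k K c) * w' + algebraMap k K c * (w' - algebraMap k K c') := by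
    rw [map_mul]
    ring
  rw [e]
  have h1 : ge v 1 ((w - algebraMap k K c) * w') := by simpa using h.2.mul h'.1
  have h2 : ge v 1 (algebraMap k K c * (w' - algebraMap k K c')) := by
    simpa using (ge_const v c).mul h'.2
  exact h1.add h2

lemma Rd.const (v : DV k K) (c : k) : Rd v (algebraMap k K c) c := by
  refine ⟨ge_const v c, ?_⟩
  rw [sub_self]
  exact ge_zero v 1

lemma Rd.prod {ι : Type} {v : DV k K} (s : Finset ι) (w : ι → K) (c : ι → k)
    (h : ∀ i ∈ s, Rd v (w i) (c i)) : Rd v (∏ i ∈ s, w i) (∏ i ∈ s, c i) := by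
  classical
  induction s using Finset.induction_on with
  | empty => simpa using Rd.const v 1
  | insert i s hi ih =>
    rw [Finset.prod_insert hi, Finset.prod_insert hi]
    exact (h i (Finset.mem_insert_self _ _)).mul
      (ih fun j hj => h j (Finset.mem_insert_of_mem hj))

lemma Rd.sum {ι : Type} {v : DV k K} (s : Finset ι) (w : ι → K) (c : ι → k)
    (h : ∀ i ∈ s, Rd v (w i) (c i)) : Rd v (∑ i ∈ s, w i) (∑ i ∈ s, c i) := by
  classical
  induction s using Finset.induction_on with
  | empty => simpa using Rd.const v 0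
  | insert i s hi ih =>
    rw [Finset.sum_insert hi, Finset.sum_insert hi]
    exact (h i (Finset.mem_insert_self _ _)).add
      (ih fun j hj => h j (Finset.mem_insert_of_mem hj))

lemma Rd.det {m : Type} [Fintype m] [DecidableEq m] {v : DV k K} (W : Matrix m m K)
    (M : Matrix m m k) (h : ∀ i j, Rd v (W i j) (M i j)) : Rd v W.det M.det := by
  rw [Matrix.det_apply', Matrix.det_apply']
  refine Rd.sum _ _ _ fun σ _ => Rd.mul ?_ (Rd.prod _ _ _ fun i _ => h _ _)
  have := Rd.const v (((Equiv.Perm.sign σ : ℤ)) : k)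
  rwa [map_intCast] at this

lemma Rd.unit {v : DV k K} {w : K} {c : k} (h : Rd v w c) (hc : c ≠ 0) :
    w ≠ 0 ∧ v.ord w = 0 := by
  have hc' : algebraMap k K c ≠ 0 := by
    rw [Ne, map_eq_zero]
    exact hc
  have e1 : w = algebraMap k K c + (w - algebraMap k K c) := by ring
  have h2 := v.ord_add_eq_left (x := algebraMap k K c) (y := w - algebraMap k K c) hc'
    (fun h0 => by
      rw [v.ord_base]
      have := h.2.resolve_left h0
      omega)
  rw [← e1, v.ord_base] at h2
  exact h2

end

/-- a nonzero minor -/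
lemma exists_cols {k : Type} [Field k] {A : Type} [Fintype A] [DecidableEq A] {n : ℕ}
    (r : A → Fin n → k) (h : LinearIndependent k r) :
    ∃ J : A → Fin n, Function.Injective J ∧ (Matrix.of fun i i' : A => r i (J i')).det ≠ 0 := by
  have hrank : (Matrix.of r).rank = Fintype.card A := LinearIndependent.rank_matrix h
  obtain ⟨κ, a, ha, hspan, hli⟩ := exists_linearIndependent' k
    (fun c : Fin n => fun i : A => r i c)
  have hfin : Module.finrank k (Submodule.span k (Set.range (fun c : Fin n => fun i : A => r i c)))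
      = Fintype.card A := by
    rw [← hrank, Matrix.rank_eq_finrank_span_cols]
    rfl
  have : Finite κ := Finite.of_injective a ha
  have : Fintype κ := Fintype.ofFinite κ
  have hcard : Fintype.card κ = Fintype.card A := by
    rw [← finrank_span_eq_card hli, hspan, hfin]
  let q : A ≃ κ := (Fintype.equivOfCardEq hcard).symm
  refine ⟨a ∘ q, ha.comp q.injective, ?_⟩
  have hc : LinearIndependent k (fun i' : A => fun i : A => r i (a (q i'))) :=
    hli.comp q q.injective
  have hu : IsUnit (Matrix.of fun i i' : A => r i (a (q i'))) :=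
    Matrix.linearIndependent_cols_iff_isUnit.1 hc
  rw [Matrix.isUnit_iff_isUnit_det] at hu
  exact hu.ne_zero

theorem pf_GRT : T_GRT := by
  classical
  intro k K _ _ _ _ _ _ htr n ι _ e F hF hNC x hp v
  obtain ⟨b, hb0, hb⟩ := H92.VG.exists_pole3 v x 0 hp
  obtain ⟨q, hq⟩ : ∃ q : ℕ, q = poleOrder v x := ⟨_, rfl⟩
  rw [← hq] at hb ⊢
  have hu0 := v.unif_ne_zero
  obtain ⟨t, ht⟩ : ∃ t : K, t = v.unif ^ q := ⟨_, rfl⟩
  have ht0 : t ≠ 0 := by rw [ht]; exact pow_ne_zero _ hu0
  have hto : v.ord t = q := by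
    rw [ht, v.ord_pow, v.ord_unif, mul_one]
  have hz : ∀ i, 0 ≤ v.ord (t * x i) := by
    intro i
    by_cases h0 : x i = 0
    · rw [h0, mul_zero, v.ord_zero]
    · rw [v.ord_mul' ht0 h0, hto]
      have := npole_le v x i
      rw [← hq] at this
      omega
  choose a ha using fun i => (rat k K htr v).2 (t * x i) (hz i)
  have ha0 : a ≠ 0 := by
    intro h
    have h1 := ha b
    rw [h] at h1
    simp only [Pi.zero_apply, map_zero, sub_zero] at h1
    rcases h1 with h1 | h1
    · exact (mul_ne_zero ht0 hb0) h1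
    · rw [v.ord_mul' ht0 hb0, hto, hb] at h1
      omega
  have hred : ∀ G : MvPolynomial (Fin (n + 1)) k,
      Rd v (eval (fun i => t * x i) (up K G)) (eval a G) :=
    fun G => H92.VG.eval_red v _ a hz ha G
  have hscale : ∀ (G : MvPolynomial (Fin (n + 1)) k) (d : ℕ), G.IsHomogeneous d →
      eval x (up K G) = (t ^ d)⁻¹ * eval (fun i => t * x i) (up K G) := by
    intro G d hG
    have hG' : (up K G).IsHomogeneous d := hG.map _
    rw [H92.VG.eval_scale hG', inv_mul_cancel_left₀ (pow_ne_zero _ ht0)]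
  have hinv : ∀ d : ℕ, v.ord ((t ^ d)⁻¹) = -(d * q : ℤ) := by
    intro d
    rw [v.ord_inv, v.ord_pow, hto]
  have hder : ∀ i j, pderiv j (upT K F i) = up K (pderiv j (F i)) := by
    intro i j
    show pderiv j (up K (F i)) = _
    unfold up
    rw [pderiv_map]
  have hhom : ∀ i j, (pderiv j (F i)).IsHomogeneous (e i) := by
    intro i j
    have h := (hF i).pderiv (i := j)
    rwa [Nat.add_sub_cancel] at h
  constructor
  · intro i j
    rw [hder, hscale _ _ (hhom i j)]
    have h2 : ge v (-(e i * q : ℤ)) ((t ^ e i)⁻¹) := Or.inr (hinv _).ge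
    have h3 := h2.mul (hred (pderiv j (F i))).1
    rwa [add_zero] at h3
  · let A : Finset ι := Finset.univ.filter fun i => eval a (F i) = 0
    have hA : ∀ i ∈ A, eval a (F i) = 0 := fun i hi => (Finset.mem_filter.1 hi).2
    obtain ⟨J, hJ, hdet⟩ := exists_cols _ (hNC a ha0 A hA)
    have hgJ : gJ (upT K F) x J = (t ^ (∑ i ∈ A, e i))⁻¹ *
        (Matrix.of fun i i' : A =>
          eval (fun i => t * x i) (up K (pderiv (J i').succ (F i)))).det := by
      have h1 : gJ (upT K F) x J = (Matrix.of fun i i' : A => (t ^ e i)⁻¹ *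
          (Matrix.of fun i i' : A =>
            eval (fun i => t * x i) (up K (pderiv (J i').succ (F i)))) i i').det := by
        unfold gJ
        simp only [hder, hscale _ _ (hhom _ _), Matrix.of_apply]
      rw [h1, Matrix.det_mul_column]
      congr 1
      rw [Finset.prod_inv_distrib, Finset.prod_pow_eq_pow_sum, Finset.sum_coe_sort A e]
    have hdr := Rd.det (v := v) (Matrix.of fun i i' : A =>
      eval (fun i => t * x i) (up K (pderiv (J i').succ (F i))))
      (Matrix.of fun i i' : A => eval a (pderiv (J i').succ (F i))) (fun i i' => hred _)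
    obtain ⟨hd1, hd2⟩ := hdr.unit hdet
    refine ⟨A, J, hJ, ?_, ?_, ?_⟩
    · rw [hgJ]
      exact mul_ne_zero (inv_ne_zero (pow_ne_zero _ ht0)) hd1
    · rw [hgJ, v.ord_mul' (inv_ne_zero (pow_ne_zero _ ht0)) hd1, hinv, hd2, add_zero]
    · intro i hi
      have hi' : eval a (F i) ≠ 0 := fun h => hi (Finset.mem_filter.2 ⟨Finset.mem_univ _, h⟩)
      obtain ⟨h1, h2⟩ := (hred (F i)).unit hi'
      have h3 : eval x (upT K F i) = (t ^ (e i + 1))⁻¹ *
          eval (fun i => t * x i) (up K (F i)) := hscale _ _ (hF i)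
      rw [h3]
      refine ⟨mul_ne_zero (inv_ne_zero (pow_ne_zero _ ht0)) h1, ?_⟩
      rw [v.ord_mul' (inv_ne_zero (pow_ne_zero _ ht0)) h1, hinv, h2, add_zero]

end Pool.Agent.H1.CI
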