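import Pool.Agent.H17.CI.TargetsF
import Pool.Agent.H52.VG.RS

/-!
# MP_70ba79_ag: row TRT of the board `ci_modules`: lines which are not exceptional
-/

set_option autoImplicit false

namespace Pool.Agent.H1.CI

open MvPolynomial SC Pool.Agent.H27.LV Pool.Agent.H17.VG Pool.Agent.H17.CI

section

variable {K : Type} [Field K]

lemma lin_eq (γ : K) : (1 + Polynomial.C γ * Polynomial.X : Polynomial K) =
    Polynomial.C γ * Polynomial.X + Polynomial.C 1 := by
  rw [Polynomial.C_1, add_comm]

lemma natDegree_lin {γ : K} (hγ : γ ≠ 0) :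
    (1 + Polynomial.C γ * Polynomial.X : Polynomial K).natDegree = 1 := by
  rw [lin_eq, Polynomial.natDegree_linear hγ]

lemma lin_ne_zero (γ : K) : (1 + Polynomial.C γ * Polynomial.X : Polynomial K) ≠ 0 := by
  intro h
  have := congrArg (Polynomial.eval 0) h
  simp at this

/-- divisors of powers of a linear polynomial -/
lemma dvd_lin {f : Polynomial K} {γ c : K} {b : ℕ} (hc : c ≠ 0)
    (h : f ∣ Polynomial.C c * (1 + Polynomial.C γ * Polynomial.X) ^ b) :
    ∃ a : ℕ, f = Polynomial.C (f.coeff 0) * (1 + Polynomial.C γ * Polynomial.X) ^ a := by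
  by_cases hγ : γ = 0
  · subst hγ
    rw [Polynomial.C_0, zero_mul, add_zero, one_pow, mul_one] at h
    have hu : IsUnit f := isUnit_of_dvd_unit h (Polynomial.isUnit_C.2 (IsUnit.mk0 c hc))
    refine ⟨0, ?_⟩
    rw [pow_zero, mul_one]
    exact Polynomial.eq_C_of_natDegree_eq_zero (Polynomial.natDegree_eq_zero_of_isUnit hu)
  · have hp : Prime (1 + Polynomial.C γ * Polynomial.X : Polynomial K) := by
      rw [lin_eq]
      exact (Polynomial.irreducible_of_degree_eq_one (Polynomial.degree_linear hγ)).prime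
    have h2 : f ∣ (1 + Polynomial.C γ * Polynomial.X) ^ b :=
      ((Polynomial.isUnit_C.2 (IsUnit.mk0 c hc)).dvd_mul_left).1 h
    obtain ⟨a, -, hass⟩ := (dvd_prime_pow hp b).1 h2
    obtain ⟨u, hu⟩ := hass.symm
    obtain ⟨r, -, hr⟩ := Polynomial.isUnit_iff.1 u.isUnit
    refine ⟨a, ?_⟩
    have h0 : f.coeff 0 = r := by
      rw [← hu, ← hr, Polynomial.coeff_zero_eq_eval_zero]
      simp
    rw [h0, hr, mul_comm, hu]

/-- a polynomial over `K` which is a power of a linear polynomial over an extension -/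
lemma descend [CharZero K] {L : Type} [Field L] [Algebra K L] {R : Polynomial K} {c : K} {β : L}
    {b : ℕ} (hc : c ≠ 0) (h : R.map (algebraMap K L) = Polynomial.C (algebraMap K L c) *
      (1 + Polynomial.C β * Polynomial.X) ^ b) :
    ∃ (γ : K) (b' : ℕ), R = Polynomial.C c * (1 + Polynomial.C γ * Polynomial.X) ^ b' := by
  have hinj := Polynomial.map_injective (algebraMap K L) (algebraMap K L).injective
  by_cases hb : b = 0
  · refine ⟨0, 0, hinj ?_⟩
    rw [h, hb]
    simp
  · have hb' : (b : K) ≠ 0 := Nat.cast_ne_zero.2 hb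
    have h1 : algebraMap K L (R.coeff 1) = algebraMap K L c * (b * β) := by
      rw [← Polynomial.coeff_map, h, Polynomial.coeff_C_mul]
      congr 1
      have h2 : ((1 + Polynomial.C β * Polynomial.X) ^ b : Polynomial L).coeff 1 =
          (Polynomial.derivative ((1 + Polynomial.C β * Polynomial.X) ^ b)).coeff 0 := by
        rw [Polynomial.coeff_derivative]
        simp
      rw [h2, Polynomial.derivative_pow, Polynomial.coeff_zero_eq_eval_zero]
      simp
    have hβ : β = algebraMap K L (R.coeff 1 / (c * b)) := by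
      rw [map_div₀, map_mul, h1, map_natCast]
      have h3 : algebraMap K L c ≠ 0 := by
        rw [Ne, map_eq_zero]
        exact hc
      have h4 : (b : L) ≠ 0 := by
        rw [← map_natCast (algebraMap K L), Ne, map_eq_zero]
        exact hb'
      field_simp
    refine ⟨R.coeff 1 / (c * b), b, hinj ?_⟩
    rw [h, hβ]
    simp

end

theorem pf_TRT : T_TRT := by
  intro K _ _ n ι _ _ e Z F x y hF hx hy hy0 hZ hEx
  by_contra hcon
  push Not at hcon
  obtain ⟨hres, α, β, a, b, hab, heq⟩ := hcon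
  apply hEx
  refine ⟨hres, ?_⟩
  obtain ⟨R, hR⟩ : ∃ R : Polynomial K, R = ∏ i ∈ Finset.univ \ Z, res x y (F i) := ⟨_, rfl⟩
  obtain ⟨c, hc⟩ : ∃ c : K, c = ∏ i ∈ Finset.univ \ Z, eval x (F i) := ⟨_, rfl⟩
  have hB : res x y (X 0 * ∏ i ∈ Finset.univ \ Z, F i) = R := by
    unfold res at hR ⊢
    rw [map_mul, map_prod, aeval_X, hx, hy, hR]
    simp
  have hBx : eval x (X 0 * ∏ i ∈ Finset.univ \ Z, F i) = c := by
    rw [map_mul, map_prod, eval_X, hx, one_mul, hc]
  rw [hB, hBx] at heq
  have hc0 : c ≠ 0 := by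
    rw [hc]
    refine Finset.prod_ne_zero_iff.2 fun i hi => ?_
    intro h
    exact (Finset.mem_sdiff.1 hi).2 ((hZ i).1 h)
  have hdeg : R.natDegree ≤ ∑ i ∈ Finset.univ \ Z, (e i + 1) := by
    rw [hR]
    refine (Polynomial.natDegree_prod_le _ _).trans (Finset.sum_le_sum fun i _ => ?_)
    exact H52.VG.res_natDegree x y (hF i)
  have hcA : algebraMap K (AlgebraicClosure K) c ≠ 0 := by
    rw [Ne, map_eq_zero]
    exact hc0
  have hα : α = 0 ∨ β = 0 := by
    by_contra hne
    push Not at hne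
    have h1 := congrArg Polynomial.natDegree heq
    rw [Polynomial.natDegree_map, mul_assoc, Polynomial.natDegree_C_mul hcA,
      Polynomial.natDegree_mul (pow_ne_zero _ (lin_ne_zero α)) (pow_ne_zero _ (lin_ne_zero β)),
      Polynomial.natDegree_pow, Polynomial.natDegree_pow, natDegree_lin hne.1,
      natDegree_lin hne.2] at h1
    omega
  obtain ⟨γ, s, hs⟩ : ∃ (γ : K) (s : ℕ), R = Polynomial.C c *
      (1 + Polynomial.C γ * Polynomial.X) ^ s := by
    rcases hα with h0 | h0
    · refine descend (L := AlgebraicClosure K) (β := β) (b := b) hc0 ?_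
      rw [heq, h0]
      simp
    · refine descend (L := AlgebraicClosure K) (β := α) (b := a) hc0 ?_
      rw [heq, h0]
      simp
  refine ⟨γ, fun i hi => ?_⟩
  have hd : res x y (F i) ∣ R := by
    rw [hR]
    exact Finset.dvd_prod_of_mem _ (Finset.mem_sdiff.2 ⟨Finset.mem_univ _, hi⟩)
  rw [hs] at hd
  obtain ⟨m, hm⟩ := dvd_lin hc0 hd
  refine ⟨m, ?_⟩
  rwa [H52.VG.res_coeff_zero] at hm

end Pool.Agent.H1.CI
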